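import Pool.Agent.TSP.Defs

open Set Topology TopologicalSpace Cardinal Filter

namespace Pool.Agent.TSP

universe u v

/-- If all connected components are second countable, `X` is metrizable.

Proof. `Pool.Agent.TSC.metrizable_of_partition` with `c x := connectedComponent x` (values in `Set X`); the fibre over
`k` is empty or a component, which is open; second countable + T3 is metrizable
(`metrizableSpace_of_t3_secondCountable`). -/
theorem metrizable_of_components {X : Type u} [TopologicalSpace X] [T3Space X]
    [LocallyConnectedSpace X]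
    (h : ∀ x : X, SecondCountableTopology (connectedComponent x)) : MetrizableSpace X := by
  have key : ∀ k : Set X, IsOpen ((fun x : X => connectedComponent x) ⁻¹' {k}) ∧
      MetrizableSpace ((fun x : X => connectedComponent x) ⁻¹' {k}) := by
    intro k
    by_cases hk : ((fun x : X => connectedComponent x) ⁻¹' {k}).Nonempty
    · obtain ⟨x₀, hx₀⟩ := hk
      have hx : connectedComponent x₀ = k := hx₀
      have e : ((fun x : X => connectedComponent x) ⁻¹' {k}) = connectedComponent x₀ := by
        ext y
        rw [← connectedComponent_eq_iff_mem, hx]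
        rfl
      rw [e]
      have := h x₀
      exact ⟨isOpen_connectedComponent, metrizableSpace_of_t3_secondCountable _⟩
    · rw [Set.not_nonempty_iff_eq_empty] at hk
      rw [hk]
      exact ⟨isOpen_empty, metrizableSpace_of_t3_secondCountable _⟩
  exact Pool.Agent.TSC.metrizable_of_partition (fun x : X => connectedComponent x)
    (fun k => (key k).1) (fun k => (key k).2)

/-- A set covered by at most `κ` open second countable sets is covered by at most `κ` compact sets.

Proof. `ξ := ι × ℕ`; `V i` is locally compact (open) and second countable, so sigma-compact;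
`K (i, m) := Subtype.val '' compactCovering (V i) m`. `#(ι × ℕ) = #ι * ℵ₀ ≤ lift κ * ℵ₀ = lift κ`. -/
theorem compact_cover {X : Type u} [TopologicalSpace X] [LocallyCompactSpace X] [T2Space X]
    {κ : Cardinal.{0}} (hκ : ℵ₀ ≤ κ) {Y : Set X} {ι : Type v} (hι : #ι ≤ lift.{v} κ)
    (V : ι → Set X) (hV : ∀ i, IsOpen (V i)) (hs : ∀ i, SecondCountableTopology (V i))
    (hY : Y ⊆ ⋃ i, V i) :
    ∃ (ξ : Type v) (K : ξ → Set X), #ξ ≤ lift.{v} κ ∧ (∀ i, IsCompact (K i)) ∧ Y ⊆ ⋃ i, K i := by
  have hσ : ∀ i, SigmaCompactSpace (V i) := by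
    intro i
    have := (hV i).locallyCompactSpace
    have := hs i
    infer_instance
  refine ⟨ι × ℕ, fun p => Subtype.val '' (compactCovering (V p.1) p.2), ?_, ?_, ?_⟩
  · rw [Cardinal.mk_prod]
    have h0 : ℵ₀ ≤ lift.{v} κ := by
      rw [Cardinal.aleph0_le_lift]
      exact hκ
    refine Cardinal.mul_le_of_le h0 ?_ ?_
    · simpa using hι
    · simpa using hκ
  · intro p
    exact (isCompact_compactCovering (V p.1) p.2).image continuous_subtype_val
  · intro y hy
    obtain ⟨i, hi⟩ := mem_iUnion.1 (hY hy)
    have h1 : (⟨y, hi⟩ : V i) ∈ ⋃ m, compactCovering (V i) m := by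
      rw [iUnion_compactCovering]
      exact mem_univ _
    obtain ⟨m, hm⟩ := mem_iUnion.1 h1
    exact mem_iUnion.2 ⟨(i, m), ⟨⟨y, hi⟩, hm, rfl⟩⟩

end Pool.Agent.TSP
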