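import Pool.Agent.TSC.Mfd
import Pool.Agent.TSC.Small

/-!
# TSP/Defs: definitions

`SFIP`, pseudo-intersections, the cardinals `𝔭` and `𝔟`, and the family of closed sets used in the
recursion.
-/

open Set Topology TopologicalSpace Cardinal Filter

namespace Pool.Agent.TSP

universe u

/-- Strong finite intersection property: finite subfamilies have infinite intersections. -/
def SFIP (A : Set (Set ℕ)) : Prop := ∀ F : Set (Set ℕ), F.Finite → F ⊆ A → (⋂₀ F).Infinite

/-- `A` has an infinite pseudo-intersection. -/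
def HasPI (A : Set (Set ℕ)) : Prop := ∃ B : Set ℕ, B.Infinite ∧ ∀ a ∈ A, (B \ a).Finite

/-- The pseudo-intersection number `𝔭`. -/
noncomputable def pNum : Cardinal.{0} :=
  sInf {κ | ∃ A : Set (Set ℕ), #A = κ ∧ SFIP A ∧ ¬ HasPI A}

/-- The (un)bounding number `𝔟`. -/
noncomputable def bNum : Cardinal.{0} :=
  sInf {κ | ∃ f : Set (ℕ → ℕ), #f = κ ∧ ¬ ∃ g : ℕ → ℕ, ∀ h ∈ f, ∀ᶠ n in atTop, h n ≤ g n}

/-- `F n k`, `k = 0, 1, ...`, is an increasing sequence of closed subsets of `U n`. -/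
structure Fam {X : Type u} [TopologicalSpace X] (U : ℕ → Set X) where
  F : ℕ → ℕ → Set X
  closed : ∀ n k, IsClosed (F n k)
  mono : ∀ n, Monotone (F n)
  sub : ∀ n k, F n k ⊆ U n

/-- The `n`-th sigma set of a family. -/
def Fam.S {X : Type u} [TopologicalSpace X] {U : ℕ → Set X} (G : Fam U) (n : ℕ) : Set X :=
  ⋃ k, G.F n k

end Pool.Agent.TSP
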