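import Pool.Agent.TSP.LA

open Set Topology TopologicalSpace Cardinal Filter

namespace Pool.Agent.TSP

universe u

/-- Cardinality of a union of countable sets. -/
private theorem LK_card {κ : Cardinal.{0}} (hκ : ℵ₀ ≤ κ) {W T : Type} (hT : #T ≤ κ)
    (D : T → Set W) (hD : ∀ t, (D t).Countable) : #(⋃ t, D t) ≤ κ := by
  calc #(⋃ t, D t) ≤ Cardinal.sum fun t => #(D t) := mk_iUnion_le_sum_mk
    _ ≤ Cardinal.sum fun _ : T => ℵ₀ := Cardinal.sum_le_sum _ _ fun t => (hD t).le_aleph0
    _ = #T * ℵ₀ := by simp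
    _ ≤ κ * κ := mul_le_mul' hT hκ
    _ = κ := mul_eq_self hκ

/-- The transfinite recursion. -/
private theorem LK_rec {X W : Type*} [LinearOrder W] [WellFoundedLT W] (x₀ : X)
    (Z : ∀ w : W, (∀ w' < w, X) → Set X) (Q : Set X → X → Prop) :
    ∃ x : W → X, ∀ w, (Q (Z w fun w' _ => x w') (x w)) ∨
      ((¬ ∃ y, Q (Z w fun w' _ => x w') y) ∧ x w = x₀) := by
  classical
  let F : ∀ w : W, (∀ w' : W, w' < w → X) → X := fun w f =>
    if h : ∃ y, Q (Z w f) y then h.choose else x₀
  let x : W → X := wellFounded_lt.fix F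
  have hx : ∀ w, x w = F w (fun w' _ => x w') := fun w => WellFounded.fix_eq _ _ _
  refine ⟨x, fun w => ?_⟩
  by_cases h : ∃ y, Q (Z w fun w' _ => x w') y
  · left
    rw [hx w]
    simp only [F]
    rw [dif_pos h]
    exact h.choose_spec
  · right
    refine ⟨h, ?_⟩
    rw [hx w]
    simp only [F]
    rw [dif_neg h]

/-- **Reflection.** `W` is a well order with `#W > κ` and initial segments of size `≤ κ`. If for every `x : W → C`
(`C := connectedComponent x₀`) the points `x w` are covered by at most `κ` open metrizable sets, then `C` is covered by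
at most `κ` open second countable sets.

Proof (helper lemmas `exists_strict_ub`, `lindelof_part`, `exists_boundary`, `exists_pieces` are in `LA.lean`, use them
as stubs). `C` is open (`isOpen_connectedComponent`) and closed. Call `Z ⊆ X` *small* if it is the union of a family
`V : ι → Set X`, `ι : Type`, `#ι ≤ κ`, of open second countable sets. Suppose `C` is not contained in (equivalently:
is not) a small set. Choose `c : X → Set X` with `c y` open second countable, `y ∈ c y`, and `c y ⊆ C` for `y ∈ C`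
(intersect with `C`; subsets of second countable sets are second countable, `Pool.Agent.TSC.sc_mono`). By well-founded
recursion choose `x : W → X`: with `Z w := c x₀ ∪ ⋃ w' < w, c (x w')`, `x w ∈ C ∩ frontier (Z w)` if this is nonempty
(else `x w = x₀`). By induction all `x w ∈ C`, `Z w ⊆ C` is open, nonempty, small, so `Z w ≠ C`, so (as `C` is
connected: otherwise `Z w = C ∩ closure (Z w)` would be clopen in `C`) the frontier point exists: `x w ∈ C`,
`x w ∈ closure (Z w)`, `x w ∉ Z w` for all `w`.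
Let `O : ι → Set X` be from `h`. By `Pool.Agent.TSC.exists_disjoint_pieces` each `O i` is the union of disjoint open
second countable `P i k`. For `w : W` the set of pairs `(i, k)` with `P i k ∩ Z w ≠ ∅` has at most `κ` elements (for
each `i` and each of the `≤ κ` open second countable sets `c _` forming `Z w` only countably many `k`:
`Pool.Agent.TSC.countable_meet`); hence `Y w := Z w ∪ ⋃ {P i k | P i k ∩ Z w ≠ ∅}` is small. Every open second
countable `V` satisfies `V ∩ ⋃ w', c (x w') ⊆ ⋃ w' ∈ D, c (x w')` for a countable `D ⊆ W` (Lindelöf property of the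
second countable space `V ∩ ...`, e.g. `TopologicalSpace.isOpen_iUnion_countable` in the subtype `V`). So
`Y w ∩ ⋃ w', c (x w')` is contained in `⋃ w' ∈ D, c (x w')` with `#D ≤ κ`. A subset `D` of `W` with `#D ≤ κ` has a
strict upper bound (otherwise `W = ⋃ d ∈ D, Iic d` has size `≤ κ * κ = κ`). Hence there is `g w > w` with
`Y w ∩ ⋃ w', c (x w') ⊆ Z (g w)`. Put `δ 0` arbitrary (`W` is nonempty), `δ (m+1) = g (δ m)`, and let `δ∞` be the least
`w` with `δ m < w` for all `m` (exists: countable sets are bounded, well-foundedness). Then `Z δ∞ = ⋃ m, Z (δ m)` (if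
`w' < δ∞` then `w' ≤ δ m < δ (m+1)` for some `m`). `x δ∞ ∈ O i`, so `x δ∞ ∈ P i k` for some `k`; `P i k` is open and
`x δ∞ ∈ closure (Z δ∞)`, so `P i k` meets `Z δ∞`, hence some `Z (δ m)`; so
`x δ∞ ∈ Y (δ m) ∩ c (x δ∞) ⊆ Z (g (δ m)) = Z (δ (m+1)) ⊆ Z δ∞`, contradicting `x δ∞ ∉ Z δ∞`. -/
theorem lemK {X : Type u} [TopologicalSpace X] [T3Space X] [LocallyConnectedSpace X]
    (hl : ∀ x : X, ∃ V : Set X, IsOpen V ∧ x ∈ V ∧ SecondCountableTopology V)
    {κ : Cardinal.{0}} (hκ : ℵ₀ ≤ κ) {W : Type} [LinearOrder W] [WellFoundedLT W] (hW : κ < #W)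
    (hW' : ∀ w : W, #(Iio w) ≤ κ) (x₀ : X)
    (h : ∀ x : W → X, (∀ w, x w ∈ connectedComponent x₀) → ∃ (ι : Type) (O : ι → Set X), #ι ≤ κ ∧
      (∀ i, IsOpen (O i)) ∧ (∀ i, MetrizableSpace (O i)) ∧ ∀ w, ∃ i, x w ∈ O i) :
    ∃ (ι : Type) (V : ι → Set X), #ι ≤ κ ∧ (∀ i, IsOpen (V i)) ∧
      (∀ i, SecondCountableTopology (V i)) ∧ connectedComponent x₀ ⊆ ⋃ i, V i := by
  classical
  by_contra hcon
  set C := connectedComponent x₀ with hCdef
  -- the neighbourhoods
  choose V0 hV0o hV0x hV0s using hl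
  let c : X → Set X := fun y => V0 y ∩ connectedComponent y
  have hco : ∀ y, IsOpen (c y) := fun y => (hV0o y).inter isOpen_connectedComponent
  have hcx : ∀ y, y ∈ c y := fun y => ⟨hV0x y, mem_connectedComponent⟩
  have hcs : ∀ y, SecondCountableTopology (c y) := fun y => Pool.Agent.TSC.sc_mono
    inter_subset_left (hV0s y)
  have hcC : ∀ y ∈ C, c y ⊆ C := by
    intro y hy z hz
    have h1 : connectedComponent x₀ = connectedComponent y := connectedComponent_eq hy
    rw [hCdef, h1]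
    exact hz.2
  -- the recursion
  obtain ⟨x, hx⟩ := LK_rec (W := W) x₀ (fun w f => c x₀ ∪ ⋃ (w' : W) (h : w' < w), c (f w' h))
    (fun Z y => y ∈ C ∧ y ∈ closure Z ∧ y ∉ Z)
  let Z : W → Set X := fun w => c x₀ ∪ ⋃ (w' : W) (_ : w' < w), c (x w')
  have hx' : ∀ w, (x w ∈ C ∧ x w ∈ closure (Z w) ∧ x w ∉ Z w) ∨
      ((¬ ∃ y, y ∈ C ∧ y ∈ closure (Z w) ∧ y ∉ Z w) ∧ x w = x₀) := hx
  have hx0C : x₀ ∈ C := mem_connectedComponent
  have hxC : ∀ w, x w ∈ C := by
    intro w
    rcases hx' w with h1 | h1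
    · exact h1.1
    · rw [h1.2]
      exact hx0C
  have hZo : ∀ w, IsOpen (Z w) := fun w =>
    (hco x₀).union (isOpen_iUnion fun w' => isOpen_iUnion fun _ => hco _)
  have hZC : ∀ w, Z w ⊆ C := by
    intro w
    apply union_subset (hcC _ hx0C)
    exact iUnion_subset fun w' => iUnion_subset fun _ => hcC _ (hxC w')
  have hZne : ∀ w, (Z w).Nonempty := fun w => ⟨x₀, Or.inl (hcx x₀)⟩
  have hZmono : ∀ w w', w ≤ w' → Z w ⊆ Z w' := by
    intro w w' hww
    apply union_subset_union_right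
    exact iUnion_subset fun v => iUnion_subset fun hv => subset_iUnion₂_of_subset v
      (hv.trans_le hww) subset_rfl
  -- the pieces of `Z w`
  let V : ∀ w : W, Option (Iio w) → Set X := fun w j => j.elim (c x₀) fun w' => c (x w')
  have hVo : ∀ w j, IsOpen (V w j) := by
    rintro w (_ | j)
    · exact hco _
    · exact hco _
  have hVs : ∀ w j, SecondCountableTopology (V w j) := by
    rintro w (_ | j)
    · exact hcs _
    · exact hcs _
  have hVZ : ∀ w, ⋃ j, V w j = Z w := by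
    intro w
    ext y
    simp only [mem_iUnion, Z, mem_union]
    constructor
    · rintro ⟨_ | j, hj⟩
      · exact Or.inl hj
      · exact Or.inr ⟨j.1, j.2, hj⟩
    · rintro (hy | ⟨w', hw', hy⟩)
      · exact ⟨none, hy⟩
      · exact ⟨some ⟨w', hw'⟩, hy⟩
  have hη : ∀ w : W, #(Option (Iio w)) ≤ κ := by
    intro w
    rw [mk_option]
    exact add_le_of_le hκ (hW' w) (one_le_aleph0.trans hκ)
  have hZC' : ∀ w, ¬ C ⊆ Z w := by
    intro w h1
    exact hcon ⟨Option (Iio w), V w, hη w, hVo w, hVs w, by rw [hVZ]; exact h1⟩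
  have hxb : ∀ w, x w ∈ closure (Z w) ∧ x w ∉ Z w := by
    intro w
    rcases hx' w with h1 | h1
    · exact h1.2
    · exact absurd (exists_boundary (hZo w) (hZne w) (hZC w) (hZC' w)) h1.1
  -- the metrizable cover
  obtain ⟨ι, O, hι, hOo, hOm, hOx⟩ := h x hxC
  have hl' : ∀ x : X, ∃ V : Set X, IsOpen V ∧ x ∈ V ∧ SecondCountableTopology V :=
    fun x => ⟨V0 x, hV0o x, hV0x x, hV0s x⟩
  have hp := fun i => Pool.Agent.TSC.exists_disjoint_pieces hl' (hOo i) (hOm i)
  choose k P hPo hPs hPd hPU using hp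
  have hq := fun w => exists_pieces hκ hι (hη w) P hPo hPd (V w) (hVs w)
  choose τ f hτ hf using hq
  -- the next index
  have hg : ∀ w, ∃ b, w < b ∧ ∀ t : τ w, P (f w t).1 (f w t).2 ∩ ⋃ w', c (x w') ⊆ Z b := by
    intro w
    have hL := fun t : τ w => lindelof_part (hPs (f w t).1 (f w t).2)
      (c := fun w' => c (x w')) (fun w' => hco (x w'))
    choose D hDc hDs using hL
    have h1 : #(⋃ t : Option (τ w), (t.elim {w} D : Set W)) ≤ κ := by
      apply LK_card hκ
      · rw [mk_option]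
        exact add_le_of_le hκ (hτ w) (one_le_aleph0.trans hκ)
      · rintro (_ | t)
        · exact countable_singleton _
        · exact hDc t
    obtain ⟨b, hb⟩ := exists_strict_ub hκ hW hW' h1
    refine ⟨b, hb w (mem_iUnion.2 ⟨none, rfl⟩), fun t => (hDs t).trans ?_⟩
    apply subset_union_of_subset_right
    exact iUnion₂_subset fun w' hw' => subset_iUnion₂_of_subset w'
      (hb w' (mem_iUnion.2 ⟨some t, hw'⟩)) subset_rfl
  choose g hgw hgZ using hg
  -- the sequence
  have hWne : Nonempty W := by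
    rw [← mk_ne_zero_iff]
    exact (zero_le.trans_lt hW).ne'
  obtain ⟨w0⟩ := hWne
  let δ : ℕ → W := fun m => Nat.rec w0 (fun _ w => g w) m
  have hδ : ∀ m, δ (m + 1) = g (δ m) := fun m => rfl
  have hδne : {w | ∀ m, δ m < w}.Nonempty := by
    obtain ⟨b, hb⟩ := exists_strict_ub hκ hW hW' (D := range δ)
      ((countable_range δ).le_aleph0.trans hκ)
    exact ⟨b, fun m => hb _ (mem_range_self m)⟩
  obtain ⟨d, hd, hdmin⟩ := WellFounded.has_min (wellFounded_lt (α := W)) _ hδne
  have hd' : ∀ w' < d, ∃ m, w' ≤ δ m := by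
    intro w' hw'
    by_contra h1
    push Not at h1
    exact hdmin w' h1 hw'
  have hZd : Z d ⊆ ⋃ m, Z (δ m) := by
    rintro y (hy | hy)
    · exact mem_iUnion.2 ⟨0, Or.inl hy⟩
    · obtain ⟨w', hw', hy⟩ := mem_iUnion₂.1 hy
      obtain ⟨m, hm⟩ := hd' w' hw'
      refine mem_iUnion.2 ⟨m + 1, Or.inr (mem_iUnion₂.2 ⟨w', ?_, hy⟩)⟩
      rw [hδ]
      exact hm.trans_lt (hgw _)
  obtain ⟨hxcl, hxZ⟩ := hxb d
  obtain ⟨i, hi⟩ := hOx d
  rw [← hPU i] at hi
  obtain ⟨a, ha⟩ := mem_iUnion.1 hi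
  obtain ⟨y, hyP, hyZ⟩ := mem_closure_iff.1 hxcl _ (hPo i a) ha
  obtain ⟨m, hm⟩ := mem_iUnion.1 (hZd hyZ)
  obtain ⟨t, ht⟩ := hf (δ m) i a ⟨y, by rw [hVZ]; exact hm, hyP⟩
  have h2 := hgZ (δ m) t
  rw [ht] at h2
  have h3 : x d ∈ Z (g (δ m)) := h2 ⟨ha, mem_iUnion.2 ⟨d, hcx _⟩⟩
  exact hxZ (hZmono _ _ (hd (m + 1)).le h3)

end Pool.Agent.TSP
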