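import Pool.Agent.TSP.Defs

open Set Topology TopologicalSpace Cardinal Filter

namespace Pool.Agent.TSP

universe u v

/-- The open set coded by `a`. -/
private def PT_Wa {X : Type u} (U : ℕ → Set X) (a : Finset (Finset ℕ)) : Set X :=
  ⋃ s ∈ a, ⋂ m ∈ s, U m

private theorem PT_Wa_open {X : Type u} [TopologicalSpace X] {U : ℕ → Set X}
    (hU : ∀ k, IsOpen (U k)) (a : Finset (Finset ℕ)) : IsOpen (PT_Wa U a) := by
  unfold PT_Wa
  exact isOpen_biUnion fun s _ => isOpen_biInter_finset fun m _ => hU m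

/-- Finitely many compact sets disjoint from `U n` and finitely many points of `U n`. -/
private theorem PT_claim {X : Type u} [TopologicalSpace X] {U : ℕ → Set X}
    (hU : ∀ k, IsOpen (U k)) (hsep : ∀ x y, x ≠ y → ∃ k, x ∈ U k ∧ y ∉ U k) (n : ℕ)
    {H C : Set X} (hC : IsCompact C) (hCH : C ⊆ H) (hH : ∀ h ∈ H, h ∉ U n)
    (E : Finset X) (hE : ∀ e ∈ E, e ∈ U n) :
    ∃ a : Finset (Finset ℕ), C ⊆ PT_Wa U a ∧ ∀ e ∈ E, e ∉ PT_Wa U a := by
  classical
  have h1 : ∀ h e : X, ∃ m : ℕ, h ∉ U n → e ∈ U n → h ∈ U m ∧ e ∉ U m := by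
    intro h e
    by_cases hh : h ∉ U n ∧ e ∈ U n
    · obtain ⟨m, hm⟩ := hsep h e (fun heq => hh.1 (heq ▸ hh.2))
      exact ⟨m, fun _ _ => hm⟩
    · exact ⟨0, fun a b => absurd ⟨a, b⟩ hh⟩
  choose m hm using h1
  have hnhds : ∀ h ∈ C, (⋂ k ∈ E.image (m h), U k) ∈ 𝓝 h := by
    intro h hh
    refine (isOpen_biInter_finset fun k _ => hU k).mem_nhds ?_
    simp only [mem_iInter]
    intro k hk
    obtain ⟨e, he, rfl⟩ := Finset.mem_image.mp hk
    exact (hm h e (hH h (hCH hh)) (hE e he)).1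
  obtain ⟨t, ht, htc⟩ := hC.elim_nhds_subcover _ hnhds
  refine ⟨t.image fun h => E.image (m h), ?_, ?_⟩
  · intro y hy
    have := htc hy
    simp only [mem_iUnion] at this
    obtain ⟨h, hh, hy'⟩ := this
    unfold PT_Wa
    exact mem_biUnion (Finset.mem_coe.mpr (Finset.mem_image_of_mem _ hh)) hy'
  · intro e he hmem
    unfold PT_Wa at hmem
    simp only [mem_iUnion] at hmem
    obtain ⟨s, hs, hes⟩ := hmem
    obtain ⟨h, hh, rfl⟩ := Finset.mem_image.mp hs
    simp only [mem_iInter] at hes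
    have h2 := hes (m h e) (Finset.mem_image_of_mem _ he)
    exact (hm h e (hH h (hCH (ht h hh))) (hE e he)).2 h2

/-- **Fewer than `𝔭` compact sets.** `Y` closed and covered by at most `κ < 𝔭` compact sets, `x : W → X` a family of at
most `κ` points of `Y`: then the points `x w` lie in one open metrizable set.

Proof. By `Pool.Agent.TSC.tame` (with `S = range x`) it suffices to find, for every `n`, closed sets `P j ⊆ U n`
(`j : ℕ`) with `range x ∩ U n ⊆ ⋃ j, P j`. Fix `n`; `H := Y \ U n` is closed, `H = ⋃ i, K i ∩ H` with `K i ∩ H` compact.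
For `a : Finset (Finset ℕ)` let `Wa a := ⋃ s ∈ a, ⋂ m ∈ s, U m` (open). Claim: for finitely many `i ∈ I₀` and finitely
many points `e ∈ E₀`, `e ∈ U n`, there is `a` with `K i ∩ H ⊆ Wa a` for `i ∈ I₀` and `e ∉ Wa a` for `e ∈ E₀`. (For
`h ∈ H` and `e ∈ E₀`, `h ≠ e` as `e ∈ U n`, `h ∉ U n`; so there is `m(h,e)` with `h ∈ U m(h,e)`, `e ∉ U m(h,e)`; take
`s_h = {m(h,e) | e ∈ E₀}`; `h ∈ ⋂ m ∈ s_h, U m`; if `E₀ = ∅` this is `univ`, fine; for `e ∈ E₀` we have
`e ∉ ⋂ m ∈ s_h, U m`. The compact set `⋃ i ∈ I₀, K i ∩ H` is covered by finitely many of these.)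
The set `D := Finset (Finset ℕ) × ℕ` is countably infinite; transport to `ℕ` (`Denumerable` / `Encodable`). The family
`𝒜` of all `A i := {(a, m) | K i ∩ H ⊆ Wa a}` (`i : ξ`) and `B w := {(a, m) | x w ∉ Wa a}` (`w : W` with `x w ∈ U n`)
has at most `κ + κ = κ` members and the SFIP (the intersection of finitely many contains `{a} × ℕ`). So there is an
infinite pseudo-intersection `B`. Put `G k := ⋃ {Wa a | (a, m) ∈ B, code (a, m) ≥ k}` (open). `H ⊆ G k`: for
`h ∈ K i ∩ H` all but finitely many elements of `B` are in `A i`. If `x w ∈ U n` then `x w ∉ G k` for large `k`.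
Take `P k := Y \ G k`: closed, `⊆ U n` because `Y \ U n ⊆ G k`. -/
theorem lemP {X : Type u} [TopologicalSpace X] [T4Space X] [LocallyCompactSpace X]
    [LocallyConnectedSpace X]
    (hl : ∀ x : X, ∃ V : Set X, IsOpen V ∧ x ∈ V ∧ SecondCountableTopology V)
    {U : ℕ → Set X} (hU : ∀ k, IsOpen (U k)) (hsep : ∀ x y, x ≠ y → ∃ k, x ∈ U k ∧ y ∉ U k)
    {κ : Cardinal.{0}} (hκ : ℵ₀ ≤ κ) (hp : ∀ A : Set (Set ℕ), #A ≤ κ → SFIP A → HasPI A)
    {Y : Set X} (hY : IsClosed Y) {ξ : Type v} (hξ : #ξ ≤ lift.{v} κ) (K : ξ → Set X)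
    (hK : ∀ i, IsCompact (K i)) (hYK : Y ⊆ ⋃ i, K i) {W : Type} (hW : #W ≤ κ) (x : W → X)
    (hx : ∀ w, x w ∈ Y) :
    ∃ O : Set X, IsOpen O ∧ MetrizableSpace O ∧ ∀ w, x w ∈ O := by
  classical
  have key : TSC.Mt (range x) := by
    refine TSC.tame hl hU hsep ?_
    intro n
    let e : Finset (Finset ℕ) × ℕ ≃ ℕ := Denumerable.eqv _
    let f : ξ → Set ℕ := fun i => {d | K i ∩ (Y \ U n) ⊆ PT_Wa U (e.symm d).1}
    let g : {w : W // x w ∈ U n} → Set ℕ := fun w => {d | x w.1 ∉ PT_Wa U (e.symm d).1}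
    have hcard : #(range f ∪ range g : Set (Set ℕ)) ≤ κ := by
      refine (mk_union_le _ _).trans ?_
      refine Cardinal.add_le_of_le hκ ?_ ?_
      · have h1 := mk_range_le_lift (f := f)
        have h2 : lift.{v} #(range f) ≤ lift.{v} κ := by
          refine h1.trans ?_
          rw [Cardinal.lift_id'.{0, v}]
          exact hξ
        exact Cardinal.lift_le.mp h2
      · exact mk_range_le.trans ((mk_subtype_le _).trans hW)
    have hfin : ∀ F : Set (Set ℕ), F.Finite → F ⊆ range f ∪ range g →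
        ∃ (I : Finset ξ) (E : Finset {w : W // x w ∈ U n}),
          ∀ d, (∀ i ∈ I, d ∈ f i) → (∀ w ∈ E, d ∈ g w) → d ∈ ⋂₀ F := by
      intro F hF
      induction F, hF using Set.Finite.induction_on with
      | empty =>
        intro _
        exact ⟨∅, ∅, fun d _ _ => by simp⟩
      | @insert A F _ _ ih =>
        intro hsub
        obtain ⟨I, E, hIE⟩ := ih ((subset_insert _ _).trans hsub)
        rcases hsub (mem_insert A F) with ⟨i, rfl⟩ | ⟨w, rfl⟩
        · refine ⟨insert i I, E, fun d h1 h2 => ?_⟩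
          rw [sInter_insert]
          exact ⟨h1 i (Finset.mem_insert_self _ _),
            hIE d (fun j hj => h1 j (Finset.mem_insert_of_mem hj)) h2⟩
        · refine ⟨I, insert w E, fun d h1 h2 => ?_⟩
          rw [sInter_insert]
          exact ⟨h2 w (Finset.mem_insert_self _ _),
            hIE d h1 (fun j hj => h2 j (Finset.mem_insert_of_mem hj))⟩
    have hSFIP : SFIP (range f ∪ range g) := by
      intro F hF hsub
      obtain ⟨I, E, hIE⟩ := hfin F hF hsub
      have hC : IsCompact (⋃ i ∈ I, K i ∩ (Y \ U n)) := by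
        refine I.isCompact_biUnion fun i _ => ?_
        exact (hK i).inter_right (hY.sdiff (hU n))
      obtain ⟨a, ha1, ha2⟩ := PT_claim hU hsep n (H := Y \ U n) hC
        (iUnion₂_subset fun i _ => inter_subset_right) (fun h hh => hh.2)
        (E.image fun w => x w.1) (by
          intro z hz
          obtain ⟨w, _, rfl⟩ := Finset.mem_image.mp hz
          exact w.2)
      refine infinite_of_injective_forall_mem (f := fun m : ℕ => e (a, m)) ?_ ?_
      · intro m m' h
        have := e.injective h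
        exact (Prod.mk.inj this).2
      · intro m
        refine hIE _ ?_ ?_
        · intro i hi
          show K i ∩ (Y \ U n) ⊆ PT_Wa U (e.symm (e (a, m))).1
          rw [e.symm_apply_apply]
          exact (subset_biUnion_of_mem (u := fun i => K i ∩ (Y \ U n)) hi).trans ha1
        · intro w hw
          show x w.1 ∉ PT_Wa U (e.symm (e (a, m))).1
          rw [e.symm_apply_apply]
          exact ha2 _ (Finset.mem_image_of_mem _ hw)
    obtain ⟨B, hB, hBA⟩ := hp _ hcard hSFIP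
    let G : ℕ → Set X := fun k => ⋃ d ∈ {d | d ∈ B ∧ k ≤ d}, PT_Wa U (e.symm d).1
    have hG : ∀ k, IsOpen (G k) := fun k => isOpen_biUnion fun d _ => PT_Wa_open hU _
    refine ⟨fun k => Y \ G k, fun k => hY.sdiff (hG k), fun k => ?_, ?_⟩
    · rintro y ⟨hyY, hyG⟩
      by_contra hyn
      obtain ⟨i, hi⟩ := mem_iUnion.mp (hYK hyY)
      have hfi : (B \ f i).Finite := hBA _ (Or.inl ⟨i, rfl⟩)
      have hinf : (B ∩ f i).Infinite := by
        intro hfin'
        refine hB ((hfi.union hfin').subset ?_)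
        intro d hd
        by_cases hdf : d ∈ f i
        · exact Or.inr ⟨hd, hdf⟩
        · exact Or.inl ⟨hd, hdf⟩
      obtain ⟨d, ⟨hdB, hdf⟩, hdk⟩ := hinf.exists_gt k
      apply hyG
      exact mem_biUnion (show d ∈ {d | d ∈ B ∧ k ≤ d} from ⟨hdB, hdk.le⟩)
        (hdf ⟨hi, hyY, hyn⟩)
    · rintro y ⟨⟨w, rfl⟩, hwn⟩
      have hgw : (B \ g ⟨w, hwn⟩).Finite := hBA _ (Or.inr ⟨⟨w, hwn⟩, rfl⟩)
      obtain ⟨k, hk⟩ := hgw.bddAbove
      refine mem_iUnion.mpr ⟨k + 1, hx w, ?_⟩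
      intro hmem
      obtain ⟨d, ⟨hdB, hdk⟩, hd⟩ := mem_iUnion₂.mp hmem
      by_cases hdg : d ∈ g ⟨w, hwn⟩
      · exact hdg hd
      · have := hk ⟨hdB, hdg⟩
        omega
  obtain ⟨O, hO, hsub, hm⟩ := key
  exact ⟨O, hO, hm, fun w => hsub ⟨w, rfl⟩⟩

end Pool.Agent.TSP
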