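import Pool.Agent.TSP.Defs

open Set Topology TopologicalSpace Cardinal Filter

namespace Pool.Agent.TSP

universe u v

open Classical in
/-- The type of a point: `T U x n = true` iff `x ∈ U n`. -/
noncomputable def T {X : Type u} (U : ℕ → Set X) (x : X) : ℕ → Bool := fun n => decide (x ∈ U n)

/-- **Normal products.** If `X × M` is normal for `M = {T U (x w) | w}` then the points `x w` lie in one open metrizable
set.

Proof. `X` is normal (closed subspace `X × {m}` of `X × M`; if `W` is empty take `O = ∅`), hence `T4Space X`. By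
`Pool.Agent.TSC.tame` (with `S = range x`) it suffices to find, for every `n`, closed `P j ⊆ U n` with
`range x ∩ U n ⊆ ⋃ j, P j`. Fix `n`. `C := {q : X × M | q.1 ∉ U n}` is closed. `Γ := {q | ∀ m, q.1 ∈ U m → q.2 m = true}`
is closed: its complement is the union over `m` of the open sets `{q | q.1 ∈ U m ∧ q.2 m = false}`
(`m`-th coordinate is continuous). On `Γ`: if `q ∈ Γ`, `q.2 = T U y` (`y = x w`), then `q.1 ∈ U m → y ∈ U m` for all
`m`, so `q.1 = y` by `hsep`. `D := Γ ∩ {q | q.2 n = true}` is closed and disjoint from `C` (if `q ∈ D`, `q.2 = T U y`,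
then `q.1 = y ∈ U n`). Urysohn: continuous `g : X × M → ℝ`, `g = 0` on `C`, `g = 1` on `D`. `M` is second countable, so
separable: dense sequence/countable dense `M₀` (if `M` nonempty). `P a := {y : X | 1/2 ≤ g (y, a)}`, `a ∈ M₀`: closed,
`⊆ U n` (`g = 0` on `C`). If `x w ∈ U n` then `q := (x w, T U (x w)) ∈ D`, so `g q = 1`, so `{a | 1/2 < g (x w, a)}` is
an open nonempty subset of `M` and contains some `a ∈ M₀`, i.e. `x w ∈ P a`. -/
theorem lemProd {X : Type u} [TopologicalSpace X] [T2Space X] [LocallyCompactSpace X]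
    [LocallyConnectedSpace X]
    (hl : ∀ x : X, ∃ V : Set X, IsOpen V ∧ x ∈ V ∧ SecondCountableTopology V)
    {U : ℕ → Set X} (hU : ∀ k, IsOpen (U k)) (hsep : ∀ x y, x ≠ y → ∃ k, x ∈ U k ∧ y ∉ U k)
    {W : Type v} (x : W → X) (hN : NormalSpace (X × (range fun w => T U (x w)))) :
    ∃ O : Set X, IsOpen O ∧ MetrizableSpace O ∧ ∀ w, x w ∈ O := by
  classical
  rcases isEmpty_or_nonempty W with hW | ⟨⟨w0⟩⟩
  · obtain ⟨O, hO, -, hm⟩ := TSC.mt_empty (X := X)
    exact ⟨O, hO, hm, fun w => hW.elim w⟩
  set M : Set (ℕ → Bool) := range fun w => T U (x w) with hM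
  let m0 : M := ⟨T U (x w0), w0, rfl⟩
  have hXN : NormalSpace X := by
    have hce : IsClosedEmbedding (fun y : X => (y, m0)) := by
      refine ⟨isEmbedding_prodMkLeft m0, ?_⟩
      have : range (fun y : X => (y, m0)) = {q : X × M | q.2 = m0} := by
        ext q
        constructor
        · rintro ⟨y, rfl⟩
          rfl
        · rintro h
          exact ⟨q.1, Prod.ext rfl (by have h' : q.2 = m0 := h; exact h'.symm)⟩
      rw [this]
      exact isClosed_eq continuous_snd continuous_const
    exact hce.normalSpace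
  haveI : T4Space X := { }
  have key : TSC.Mt (range x) := by
    refine TSC.tame hl hU hsep ?_
    intro n
    have hC : IsClosed {q : X × M | q.1 ∉ U n} := by
      have : {q : X × M | q.1 ∉ U n} = Prod.fst ⁻¹' (U n)ᶜ := rfl
      rw [this]
      exact (hU n).isClosed_compl.preimage continuous_fst
    have hcoord : ∀ m : ℕ, Continuous fun q : X × M => q.2.1 m := fun m =>
      (continuous_apply m).comp (continuous_subtype_val.comp continuous_snd)
    have hΓ : IsClosed {q : X × M | ∀ m, q.1 ∈ U m → q.2.1 m = true} := by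
      rw [← isOpen_compl_iff]
      have : {q : X × M | ∀ m, q.1 ∈ U m → q.2.1 m = true}ᶜ =
          ⋃ m, ({q : X × M | q.1 ∈ U m} ∩ {q : X × M | q.2.1 m = false}) := by
        ext q
        simp only [mem_compl_iff, mem_setOf_eq, mem_iUnion, mem_inter_iff, not_forall,
          Bool.not_eq_true, exists_prop]
      rw [this]
      refine isOpen_iUnion fun m => ?_
      refine ((hU m).preimage continuous_fst).inter ?_
      exact (isOpen_discrete ({false} : Set Bool)).preimage (hcoord m)
    have hD : IsClosed ({q : X × M | ∀ m, q.1 ∈ U m → q.2.1 m = true} ∩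
        {q : X × M | q.2.1 n = true}) := by
      refine hΓ.inter ?_
      exact (isClosed_discrete ({true} : Set Bool)).preimage (hcoord n)
    have hΓeq : ∀ q : X × M, (∀ m, q.1 ∈ U m → q.2.1 m = true) → ∀ w, q.2.1 = T U (x w) →
        q.1 = x w := by
      intro q hq w hw
      by_contra hne
      obtain ⟨k, hk1, hk2⟩ := hsep _ _ hne
      have h1 := hq k hk1
      rw [hw] at h1
      exact hk2 (of_decide_eq_true h1)
    have hdisj : Disjoint {q : X × M | q.1 ∉ U n}
        ({q : X × M | ∀ m, q.1 ∈ U m → q.2.1 m = true} ∩ {q : X × M | q.2.1 n = true}) := by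
      rw [Set.disjoint_left]
      rintro q hq1 ⟨hq2, hq3⟩
      obtain ⟨w, hw⟩ := q.2.2
      have hw' : q.2.1 = T U (x w) := hw.symm
      have h1 := hΓeq q hq2 w hw'
      have hq3' : q.2.1 n = true := hq3
      rw [hw'] at hq3'
      have h2 : x w ∈ U n := of_decide_eq_true hq3'
      apply hq1
      rw [h1]; exact h2
    obtain ⟨g, hg0, hg1, -⟩ := exists_continuous_zero_one_of_isClosed hC hD hdisj
    haveI : Nonempty M := ⟨m0⟩
    obtain ⟨u, hu⟩ := exists_dense_seq M
    refine ⟨fun j => {y : X | 1 / 2 ≤ g (y, u j)}, fun j => ?_, fun j => ?_, ?_⟩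
    · exact isClosed_le continuous_const (g.continuous.comp (by fun_prop))
    · intro y hy
      by_contra hyn
      have h0 : g (y, u j) = 0 := hg0 (show (y, u j) ∈ {q : X × M | q.1 ∉ U n} from hyn)
      have hy' : 1 / 2 ≤ g (y, u j) := hy
      rw [h0] at hy'
      norm_num at hy'
    · rintro y ⟨⟨w, rfl⟩, hwn⟩
      have hqD : ((x w, ⟨T U (x w), w, rfl⟩) : X × M) ∈
          ({q : X × M | ∀ m, q.1 ∈ U m → q.2.1 m = true} ∩ {q : X × M | q.2.1 n = true}) := by
        refine ⟨fun m hm => ?_, ?_⟩
        · exact decide_eq_true hm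
        · exact decide_eq_true hwn
      have h1 : g (x w, ⟨T U (x w), w, rfl⟩) = 1 := hg1 hqD
      have hopen : IsOpen {a : M | 1 / 2 < g (x w, a)} :=
        isOpen_lt continuous_const (g.continuous.comp (by fun_prop))
      obtain ⟨j, hj⟩ := hu.exists_mem_open hopen ⟨⟨T U (x w), w, rfl⟩, by
        show (1 : ℝ) / 2 < g (x w, ⟨T U (x w), w, rfl⟩)
        rw [h1]; norm_num⟩
      refine mem_iUnion.mpr ⟨j, ?_⟩
      have hj' : 1 / 2 < g (x w, u j) := hj
      exact hj'.le
  obtain ⟨O, hO, hsub, hm⟩ := key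
  exact ⟨O, hO, hm, fun w => hsub ⟨w, rfl⟩⟩

end Pool.Agent.TSP
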