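import Pool.Agent.TSP.Defs

open Set Topology TopologicalSpace Cardinal Filter

namespace Pool.Agent.TSP

/-- Well orders of size `κ⁺` with initial segments of size at most `κ`. -/
theorem exists_well (κ : Cardinal.{0}) : ∃ (W : Type) (_ : LinearOrder W) (_ : WellFoundedLT W),
    #W = Order.succ κ ∧ ∀ w : W, #(Iio w) ≤ κ := by
  refine ⟨(Order.succ κ).ord.ToType, inferInstance, inferInstance, mk_ord_toType _, fun w => ?_⟩
  have h1 := mk_Iio_lt w (by rw [mk_ord_toType]; simp)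
  rw [mk_ord_toType] at h1
  exact Order.lt_succ_iff.1 h1

/-- `κ < 𝔟`. -/
theorem bounded_of_lt {κ : Cardinal.{0}} (h : κ < bNum) {I : Type} (hI : #I ≤ κ) (ψ : I → ℕ → ℕ) :
    ∃ φ : ℕ → ℕ, ∀ i, ∀ᶠ n in atTop, ψ i n ≤ φ n := by
  by_contra hne
  have h1 : bNum ≤ #(range ψ) := by
    apply csInf_le'
    refine ⟨range ψ, rfl, fun ⟨g, hg⟩ => hne ⟨g, fun i => hg _ ⟨i, rfl⟩⟩⟩
  exact absurd (h1.trans (mk_range_le.trans hI)) (not_le.2 h)

/-- `κ < 𝔭`. -/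
theorem pseudo_of_lt {κ : Cardinal.{0}} (h : κ < pNum) (A : Set (Set ℕ)) (hA : #A ≤ κ)
    (hs : SFIP A) : HasPI A := by
  by_contra hne
  have h1 : pNum ≤ #A := csInf_le' ⟨A, rfl, hs, hne⟩
  exact absurd (h1.trans hA) (not_le.2 h)

end Pool.Agent.TSP
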