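import Pool.Agent.TSP.LemG
import Pool.Agent.TSP.LK
import Pool.Agent.TSP.PT
import Pool.Agent.TSP.Well
import Pool.Agent.TSP.Comp
import Pool.Agent.TSP.Prod

/-!
# TSP/Fin: assembly
-/

open Set Topology TopologicalSpace Cardinal Filter

namespace Pool.Agent.TSP

universe u v

/-- If all families of `ℵ₁` points lie in open metrizable sets then `X` is metrizable. -/
theorem metrizable_of_reflect {X : Type u} [TopologicalSpace X] [T3Space X]
    [LocallyConnectedSpace X]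
    (hl : ∀ x : X, ∃ V : Set X, IsOpen V ∧ x ∈ V ∧ SecondCountableTopology V)
    (h : ∀ (W : Type) (x : W → X) (x₀ : X), #W = aleph 1 → (∀ w, x w ∈ connectedComponent x₀) →
      ∃ O : Set X, IsOpen O ∧ MetrizableSpace O ∧ ∀ w, x w ∈ O) : MetrizableSpace X := by
  apply metrizable_of_components
  intro x₀
  obtain ⟨W, i1, i2, hW1, hW2⟩ := exists_well ℵ₀
  have hW3 : #W = aleph 1 := by
    rw [hW1, ← aleph_zero, succ_aleph]
    simp
  obtain ⟨ι, V, h1, h2, h3, h4⟩ := lemK hl le_rfl (W := W) (by rw [hW1]; exact Order.lt_succ _) hW2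
    x₀ (fun x hx => by
      obtain ⟨O, h1, h2, h3⟩ := h W x x₀ hW3 hx
      exact ⟨Unit, fun _ => O, by simp, fun _ => h1, fun _ => h2, fun w => ⟨(), h3 w⟩⟩)
  have : Countable ι := mk_le_aleph0_iff.1 h1
  exact Pool.Agent.TSC.sc_mono h4 (Pool.Agent.TSC.sc_iUnion h2 h3)

/-- Components covered by at most `κ` compact sets, `ℵ₁ ≤ κ < 𝔭`. -/
theorem metrizable_of_compact_cover {X : Type u} [TopologicalSpace X] [T4Space X]
    [LocallyCompactSpace X] [LocallyConnectedSpace X]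
    (hl : ∀ x : X, ∃ V : Set X, IsOpen V ∧ x ∈ V ∧ SecondCountableTopology V)
    {U : ℕ → Set X} (hU : ∀ k, IsOpen (U k)) (hsep : ∀ x y, x ≠ y → ∃ k, x ∈ U k ∧ y ∉ U k)
    {κ : Cardinal.{0}} (hκ : aleph 1 ≤ κ) (hp : κ < pNum)
    (hc : ∀ x₀ : X, ∃ (ξ : Type v) (K : ξ → Set X), #ξ ≤ lift.{v} κ ∧ (∀ i, IsCompact (K i)) ∧
      connectedComponent x₀ ⊆ ⋃ i, K i) :
    MetrizableSpace X := by
  have hκ0 : ℵ₀ ≤ κ := (aleph0_le_aleph 1).trans hκ
  refine metrizable_of_reflect hl fun W x x₀ hW hx => ?_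
  obtain ⟨ξ, K, h5, h6, h7⟩ := hc x₀
  exact lemP hl hU hsep hκ0 (pseudo_of_lt hp) isClosed_connectedComponent h5 K h6 h7
    (hW.le.trans hκ) x hx

/-- `ℵ₁ < 𝔭` and `ℵ₂ < 𝔟`: countably paracompact examples do not exist. -/
theorem metrizable_cp {X : Type u} [TopologicalSpace X] [T4Space X] [LocallyCompactSpace X]
    [LocallyConnectedSpace X]
    (hl : ∀ x : X, ∃ V : Set X, IsOpen V ∧ x ∈ V ∧ SecondCountableTopology V)
    (hcp : Pool.Agent.TSC.CtblyParacompact X)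
    {U : ℕ → Set X} (hU : ∀ k, IsOpen (U k)) (hsep : ∀ x y, x ≠ y → ∃ k, x ∈ U k ∧ y ∉ U k)
    (hp : aleph 1 < pNum) (hb : aleph 2 < bNum) : MetrizableSpace X := by
  obtain ⟨W₁, i1, i2, hW1, hW1'⟩ := exists_well ℵ₀
  obtain ⟨W₂, i3, i4, hW2, hW2'⟩ := exists_well (aleph 1)
  have h1 : #W₁ = aleph 1 := by
    rw [hW1, ← aleph_zero, succ_aleph]
    simp
  have h2 : #W₂ = aleph 2 := by
    rw [hW2, succ_aleph, one_add_one_eq_two]
  have hnc : ¬ Countable W₁ := by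
    rw [← mk_le_aleph0_iff, h1, not_le]
    exact aleph0_lt_aleph_one
  refine metrizable_of_compact_cover.{u, 0} hl hU hsep le_rfl hp fun x₀ => ?_
  obtain ⟨ι, V, h6, h7, h8, h9⟩ := lemK hl (aleph0_le_aleph 1) (W := W₂)
    (by rw [hW2]; exact Order.lt_succ _) hW2' x₀ fun x _ => by
      obtain ⟨O, h3, h4, h5⟩ := lemG hl hcp hU hsep x
        (fun ψ => bounded_of_lt hb (I := W₂) h2.le ψ) (W := W₁) hnc
        (fun w => (mk_le_aleph0_iff.1 (hW1' w)).to_set)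
      exact ⟨W₁, O, h1.le, h3, h4, h5⟩
  exact compact_cover (aleph0_le_aleph 1) (by rw [lift_id]; exact h6) V h7 h8 h9

end Pool.Agent.TSP
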