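import Pool.Agent.TSP.Defs

open Set Topology TopologicalSpace Cardinal Filter

namespace Pool.Agent.TSP

universe u v

/-- A subset of size at most `κ` of `W` has a strict upper bound (otherwise `W = ⋃ d ∈ D, Iic d` has size at most
`κ * κ = κ`). -/
theorem exists_strict_ub {κ : Cardinal.{0}} (hκ : ℵ₀ ≤ κ) {W : Type} [LinearOrder W] (hW : κ < #W)
    (hW' : ∀ w : W, #(Iio w) ≤ κ) {D : Set W} (hD : #D ≤ κ) : ∃ b : W, ∀ d ∈ D, d < b := by
  by_contra hcon
  push Not at hcon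
  have hcov : (univ : Set W) ⊆ ⋃ d : D, Iic (d : W) := by
    intro b _
    obtain ⟨d, hd, hbd⟩ := hcon b
    exact mem_iUnion.2 ⟨⟨d, hd⟩, hbd⟩
  have hIic : ∀ d : W, #(Iic d) ≤ κ := by
    intro d
    have h1 : (Iic d : Set W) ⊆ insert d (Iio d) := by
      intro x hx
      rcases lt_or_eq_of_le hx with h | h
      · exact Or.inr h
      · exact Or.inl h
    calc #(Iic d) ≤ #(insert d (Iio d) : Set W) := mk_le_mk_of_subset h1
      _ ≤ #(Iio d) + 1 := mk_insert_le
      _ ≤ κ + κ := add_le_add (hW' d) (one_le_aleph0.trans hκ)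
      _ = κ := add_eq_self hκ
  have h2 : #W ≤ κ := by
    calc #W = #(univ : Set W) := mk_univ.symm
      _ ≤ #(⋃ d : D, Iic (d : W)) := mk_le_mk_of_subset hcov
      _ ≤ #D * ⨆ d : D, #(Iic (d : W)) := mk_iUnion_le _
      _ ≤ κ * κ := mul_le_mul' hD (ciSup_le' fun d => hIic d)
      _ = κ := mul_eq_self hκ
  exact absurd hW (not_lt.2 h2)

/-- Lindelöf property of an open second countable set (e.g. `TopologicalSpace.isOpen_iUnion_countable` in the
subtype `V`). -/
theorem lindelof_part {X : Type u} [TopologicalSpace X] {V : Set X}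
    (hV : SecondCountableTopology V) {W : Type v} {c : W → Set X} (hc : ∀ w, IsOpen (c w)) :
    ∃ D : Set W, D.Countable ∧ V ∩ ⋃ w, c w ⊆ ⋃ w ∈ D, c w := by
  have := hV
  obtain ⟨D, hD, hU⟩ := TopologicalSpace.isOpen_iUnion_countable
    (fun w => (Subtype.val ⁻¹' (c w) : Set V)) (fun w => (hc w).preimage continuous_subtype_val)
  refine ⟨D, hD, ?_⟩
  rintro x ⟨hx, hxc⟩
  obtain ⟨w, hw⟩ := mem_iUnion.1 hxc
  have h1 : (⟨x, hx⟩ : V) ∈ ⋃ i ∈ D, (Subtype.val ⁻¹' (c i) : Set V) := by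
    rw [hU]
    exact mem_iUnion.2 ⟨w, hw⟩
  obtain ⟨i, hi, hxi⟩ := mem_iUnion₂.1 h1
  exact mem_iUnion₂.2 ⟨i, hi, hxi⟩

/-- A nonempty open proper subset of a connected component has a boundary point in the component. -/
theorem exists_boundary {X : Type u} [TopologicalSpace X] {x₀ : X} {Z : Set X} (hZ : IsOpen Z)
    (hne : Z.Nonempty) (hZC : Z ⊆ connectedComponent x₀) (hZC' : ¬ connectedComponent x₀ ⊆ Z) :
    ∃ y ∈ connectedComponent x₀, y ∈ closure Z ∧ y ∉ Z := by
  by_contra hcon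
  push Not at hcon
  obtain ⟨y, hy, hyZ⟩ := not_subset.1 hZC'
  obtain ⟨z, hz⟩ := hne
  have hpc : IsPreconnected (connectedComponent x₀) := isPreconnected_connectedComponent
  obtain ⟨t, ht, ht1, ht2⟩ := hpc Z (closure Z)ᶜ hZ isClosed_closure.isOpen_compl
    (fun t ht => by
      by_cases h : t ∈ closure Z
      · exact Or.inl (hcon t ht h)
      · exact Or.inr h)
    ⟨z, hZC hz, hz⟩ ⟨y, hy, fun h => hyZ (hcon y hy h)⟩
  exact ht2 (subset_closure ht1)

/-- The pieces `P i k` (disjoint for fixed `i`) of `ι`-many families which meet a union of at most `κ` open second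
countable sets are at most `κ` many (in the form: they can be indexed by a type `τ : Type` with `#τ ≤ κ`).

Proof. For `i : ι`, `j : η` the set `{k | (V j ∩ P i k).Nonempty}` is countable (`Pool.Agent.TSC.countable_meet`), so it
is empty or the range of a map `e i j : ℕ → k i`. Take `τ := {t : ι × η × ℕ // the set for (i, j) is nonempty}` and the
obvious maps. -/
theorem exists_pieces {X : Type u} [TopologicalSpace X] {κ : Cardinal.{0}} (hκ : ℵ₀ ≤ κ)
    {ι η : Type} (hι : #ι ≤ κ) (hη : #η ≤ κ) {k : ι → Type u} (P : ∀ i, k i → Set X)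
    (hP : ∀ i a, IsOpen (P i a)) (hd : ∀ i a b, a ≠ b → Disjoint (P i a) (P i b))
    (V : η → Set X) (hs : ∀ j, SecondCountableTopology (V j)) :
    ∃ (τ : Type) (f : τ → Σ i, k i), #τ ≤ κ ∧
      ∀ i a, ((⋃ j, V j) ∩ P i a).Nonempty → ∃ t, f t = ⟨i, a⟩ := by
  have hex : ∀ (i : ι) (j : η), {a : k i | (V j ∩ P i a).Nonempty}.Nonempty →
      ∃ e : ℕ → k i, {a : k i | (V j ∩ P i a).Nonempty} = range e := by
    intro i j hne
    have h1 := Pool.Agent.TSC.countable_meet (hs j) (hP i) (s := univ)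
      (fun a _ b _ hab => hd i a b hab)
    have h2 : {a : k i | (V j ∩ P i a).Nonempty}.Countable := h1.mono (fun a ha => And.intro (mem_univ _) ha)
    exact h2.exists_eq_range hne
  choose e he using hex
  refine ⟨{t : ι × η × ℕ // {a : k t.1 | (V t.2.1 ∩ P t.1 a).Nonempty}.Nonempty},
    fun t => ⟨t.1.1, e t.1.1 t.1.2.1 t.2 t.1.2.2⟩, ?_, ?_⟩
  · calc #{t : ι × η × ℕ // {a : k t.1 | (V t.2.1 ∩ P t.1 a).Nonempty}.Nonempty}
        ≤ #(ι × η × ℕ) := mk_subtype_le _
      _ = #ι * (#η * ℵ₀) := by rw [mk_prod, mk_prod]; simp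
      _ ≤ κ * (κ * κ) := mul_le_mul' hι (mul_le_mul' hη hκ)
      _ = κ := by rw [mul_eq_self hκ, mul_eq_self hκ]
  · rintro i a ⟨x, hx, hxa⟩
    obtain ⟨j, hj⟩ := mem_iUnion.1 hx
    have hmem : a ∈ {a : k i | (V j ∩ P i a).Nonempty} := ⟨x, hj, hxa⟩
    have hne : {a : k i | (V j ∩ P i a).Nonempty}.Nonempty := ⟨a, hmem⟩
    have h1 := he i j hne
    have h2 : a ∈ range (e i j hne) := by rw [← h1]; exact hmem
    obtain ⟨n, hn⟩ := h2
    refine ⟨⟨(i, j, n), hne⟩, ?_⟩
    simp only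
    rw [hn]

end Pool.Agent.TSP
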