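import Pool.Agent.TSP.Defs

open Set Topology TopologicalSpace Cardinal Filter

namespace Pool.Agent.TSP

universe u v

private theorem Refine_closed {X : Type u} [TopologicalSpace X] [T4Space X]
    (hcp : Pool.Agent.TSC.CtblyParacompact X) {O : Set X} (hO : IsOpen O) {W : ℕ → Set X}
    (hW : ∀ n, IsOpen (W n)) (hcov : Oᶜ ⊆ ⋃ n, W n) :
    ∃ E : ℕ → Set X, (∀ n, IsClosed (E n)) ∧ (∀ n, E n ⊆ W n) ∧ Oᶜ ⊆ ⋃ n, E n := by
  classical
  let u : ℕ → Set X := fun n => Nat.casesOn n O W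
  have hu : ∀ n, IsOpen (u n) := by
    intro n
    cases n with
    | zero => exact hO
    | succ n => exact hW n
  have hcu : ⋃ n, u n = Set.univ := by
    rw [eq_univ_iff_forall]
    intro x
    by_cases hx : x ∈ O
    · exact mem_iUnion.2 ⟨0, hx⟩
    · obtain ⟨n, hn⟩ := mem_iUnion.1 (hcov hx)
      exact mem_iUnion.2 ⟨n + 1, hn⟩
  obtain ⟨β, v, hv, hcv, hlf, hidx⟩ := hcp u hu hcu
  choose idx hidx using hidx
  have hw : ∀ n : ℕ, IsOpen (⋃ b ∈ {b | idx b = n + 1}, v b) := fun n =>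
    isOpen_biUnion fun b _ => hv b
  obtain ⟨E, hE1, hE2, hE3⟩ := exists_subset_iUnion_closed_subset hO.isClosed_compl hw
    (by
      intro x _
      refine ((hlf.point_finite x).image (fun b => idx b - 1)).subset ?_
      intro n hn
      simp only [mem_setOf_eq, mem_iUnion, exists_prop] at hn
      obtain ⟨b, hb, hxb⟩ := hn
      exact ⟨b, hxb, by simp only; omega⟩)
    (by
      intro x hx
      have hx1 : x ∈ ⋃ b, v b := by rw [hcv]; trivial
      obtain ⟨b, hb⟩ := mem_iUnion.1 hx1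
      have hne : idx b ≠ 0 := by
        intro h0
        have h1 := hidx b hb
        rw [h0] at h1
        exact hx h1
      obtain ⟨n, hn⟩ := Nat.exists_eq_succ_of_ne_zero hne
      simp only [mem_iUnion, mem_setOf_eq, exists_prop]
      exact ⟨n, b, hn, hb⟩)
  refine ⟨E, hE2, fun n => (hE3 n).trans ?_, hE1⟩
  intro x hx
  simp only [mem_iUnion, mem_setOf_eq, exists_prop] at hx
  obtain ⟨b, hb, hxb⟩ := hx
  have h1 := hidx b hxb
  rw [hb] at h1
  exact h1

/-- **One step of the recursion.**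

Proof. `ψ i n :=` the least `k` with `p i ∈ G.F n k` if `p i ∈ G.S n`, else `0`. `hb` gives `φ`; put
`φ' j n := max (φ n) j`; for every `i` there is `j` with `∀ n, ψ i n ≤ φ' j n` (finitely many exceptions `n`, take `j`
larger than all `ψ i n` there), hence, by monotonicity of `G.F n`, `p i ∈ G.S n → p i ∈ G.F n (φ' j n)` for all `n`.
Fix `j`. `Q j := {z | ∀ n, z ∈ U n → z ∈ G.F n (φ' j n)}`. `Pool.Agent.TSC.tame` with `S = Q j`, `P _ := G.F n (φ' j n)`
gives an open metrizable `O j ⊇ Q j`. The open sets `O j` and `U n \ G.F n (φ' j n)` (`n : ℕ`) cover `X`. By countable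
paracompactness and normality there are closed `E j n ⊆ U n \ G.F n (φ' j n)` with `(O j)ᶜ ⊆ ⋃ n, E j n` (locally
finite open refinement `v b`, choose for `b` an index, take the unions; then the shrinking lemma
`exists_iUnion_eq_closed_subset` / `exists_subset_iUnion_closed_subset` for point-finite open covers of a normal
space). `H.F n k := G.F n k ∪ ⋃ j ≤ k, E j n`; `O := ⋃ j, O j` is metrizable by `Pool.Agent.TSC.metrizable_iUnion`.
If `p i ∉ O`, take `j` as above; `p i ∉ O j`, so `p i ∈ E j n` for some `n`; then `p i ∉ G.F n (φ' j n)` so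
`p i ∉ G.S n`, and `p i ∈ H.F n j ⊆ H.S n`. -/
theorem refine_step {X : Type u} [TopologicalSpace X] [T4Space X] [LocallyCompactSpace X]
    [LocallyConnectedSpace X]
    (hl : ∀ x : X, ∃ V : Set X, IsOpen V ∧ x ∈ V ∧ SecondCountableTopology V)
    (hcp : Pool.Agent.TSC.CtblyParacompact X)
    {U : ℕ → Set X} (hU : ∀ k, IsOpen (U k)) (hsep : ∀ x y, x ≠ y → ∃ k, x ∈ U k ∧ y ∉ U k)
    {I : Type v} (p : I → X)
    (hb : ∀ ψ : I → ℕ → ℕ, ∃ φ : ℕ → ℕ, ∀ i, ∀ᶠ n in atTop, ψ i n ≤ φ n) (G : Fam U) :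
    ∃ (H : Fam U) (O : Set X), IsOpen O ∧ MetrizableSpace O ∧ (∀ n, G.S n ⊆ H.S n) ∧
      ∀ i, p i ∈ O ∨ ∃ n, p i ∉ G.S n ∧ p i ∈ H.S n := by
  classical
  let ψ : I → ℕ → ℕ := fun i n => if h : p i ∈ G.S n then Nat.find (mem_iUnion.1 h) else 0
  have hψ : ∀ i n, p i ∈ G.S n → p i ∈ G.F n (ψ i n) := by
    intro i n h
    have e : ψ i n = Nat.find (mem_iUnion.1 h) := by
      simp only [ψ]
      rw [dif_pos h]
    rw [e]
    exact Nat.find_spec (mem_iUnion.1 h)
  obtain ⟨φ, hφ⟩ := hb ψ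
  have hj : ∀ i, ∃ j : ℕ, ∀ n, ψ i n ≤ max (φ n) j := by
    intro i
    obtain ⟨N, hN⟩ := eventually_atTop.1 (hφ i)
    refine ⟨(Finset.range N).sup (ψ i), fun n => ?_⟩
    by_cases h : N ≤ n
    · exact (hN n h).trans (le_max_left _ _)
    · exact (Finset.le_sup (f := ψ i) (Finset.mem_range.2 (not_le.1 h))).trans (le_max_right _ _)
  let W : ℕ → ℕ → Set X := fun j n => U n \ G.F n (max (φ n) j)
  have hW : ∀ j n, IsOpen (W j n) := fun j n => (hU n).sdiff (G.closed n _)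
  have key : ∀ j : ℕ, ∃ (O : Set X) (E : ℕ → Set X), IsOpen O ∧ MetrizableSpace O ∧
      (∀ n, IsClosed (E n)) ∧ (∀ n, E n ⊆ W j n) ∧ Oᶜ ⊆ ⋃ n, E n := by
    intro j
    have hmt := Pool.Agent.TSC.tame hl hU hsep
      (S := {z | ∀ n, z ∈ U n → z ∈ G.F n (max (φ n) j)}) (by
        intro k
        refine ⟨fun _ => G.F k (max (φ k) j), fun _ => G.closed k _, fun _ => G.sub k _, ?_⟩
        rintro z ⟨hz1, hz2⟩
        exact mem_iUnion.2 ⟨0, hz1 k hz2⟩)
    obtain ⟨O, hO, hQO, hm⟩ := hmt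
    obtain ⟨E, hE1, hE2, hE3⟩ := Refine_closed hcp hO (W := W j) (hW j) (by
      intro x hx
      have hxQ : ¬ ∀ n, x ∈ U n → x ∈ G.F n (max (φ n) j) := fun h => hx (hQO h)
      push Not at hxQ
      obtain ⟨n, hn1, hn2⟩ := hxQ
      exact mem_iUnion.2 ⟨n, hn1, hn2⟩)
    exact ⟨O, E, hO, hm, hE1, hE2, hE3⟩
  choose O E hO hm hE1 hE2 hE3 using key
  let H : Fam U :=
    { F := fun n k => G.F n k ∪ ⋃ j ∈ Iic k, E j n
      closed := fun n k => (G.closed n k).union ((finite_Iic k).isClosed_biUnion fun j _ => hE1 j n)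
      mono := by
        intro n a b hab
        exact union_subset_union (G.mono n hab) (biUnion_subset_biUnion_left (Iic_subset_Iic.2 hab))
      sub := by
        intro n k
        refine union_subset (G.sub n k) (iUnion₂_subset fun j _ => ?_)
        exact (hE2 j n).trans diff_subset }
  refine ⟨H, ⋃ j, O j, isOpen_iUnion hO, Pool.Agent.TSC.metrizable_iUnion hl hO hm, ?_, ?_⟩
  · intro n
    exact iUnion_mono fun k => subset_union_left
  · intro i
    by_cases hi : p i ∈ ⋃ j, O j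
    · exact Or.inl hi
    · right
      obtain ⟨j, hj⟩ := hj i
      have hiO : p i ∈ (O j)ᶜ := fun h => hi (mem_iUnion.2 ⟨j, h⟩)
      obtain ⟨n, hn⟩ := mem_iUnion.1 (hE3 j hiO)
      refine ⟨n, ?_, ?_⟩
      · intro hS
        have h1 := hE2 j n hn
        exact h1.2 (G.mono n (hj n) (hψ i n hS))
      · refine mem_iUnion.2 ⟨j, Or.inr ?_⟩
        exact mem_biUnion (mem_Iic.2 le_rfl) hn

end Pool.Agent.TSP
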