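import Pool.Agent.TSP.Sup
import Pool.Agent.TSP.Refine

open Set Topology TopologicalSpace Cardinal Filter

namespace Pool.Agent.TSP

universe u v

/-- **A family of points with the boundedness property is covered by `ℵ₁` open metrizable sets.**

Proof. Choose `R : Fam U → Fam U` and `Oo : Fam U → Set X` from `refine_step`. Define `G : W → Fam U` by well-founded
recursion: `G w` is the supremum (`Fam.exists_sup`, over the countable type `Iio w`) of the `R (G w')`, `w' < w`
(`WellFounded.fix`; e.g. first choose `sup : ∀ (w) (g : Iio w → Fam U), Fam U`). So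
`(G w).S n = ⋃ w' < w, (R (G w')).S n`. Put `O w := Oo (G w)`. Suppose `p i ∉ O w` for all `w`. For every `w` there is
`n w` with `p i ∉ (G w).S (n w)`, `p i ∈ (R (G w)).S (n w)`; hence `p i ∈ (G w').S (n w)` for all `w' > w`. So `n` is
injective on `W` (if `w < w'`, `n w = n w'` is impossible), contradicting `hW`. -/
theorem lemG {X : Type u} [TopologicalSpace X] [T4Space X] [LocallyCompactSpace X]
    [LocallyConnectedSpace X]
    (hl : ∀ x : X, ∃ V : Set X, IsOpen V ∧ x ∈ V ∧ SecondCountableTopology V)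
    (hcp : Pool.Agent.TSC.CtblyParacompact X)
    {U : ℕ → Set X} (hU : ∀ k, IsOpen (U k)) (hsep : ∀ x y, x ≠ y → ∃ k, x ∈ U k ∧ y ∉ U k)
    {I : Type v} (p : I → X)
    (hb : ∀ ψ : I → ℕ → ℕ, ∃ φ : ℕ → ℕ, ∀ i, ∀ᶠ n in atTop, ψ i n ≤ φ n)
    {W : Type} [LinearOrder W] [WellFoundedLT W] (hW : ¬ Countable W)
    (hW' : ∀ w : W, (Iio w).Countable) :
    ∃ O : W → Set X, (∀ w, IsOpen (O w)) ∧ (∀ w, MetrizableSpace (O w)) ∧ ∀ i, ∃ w, p i ∈ O w := by
  classical
  choose R Oo hOo hmet hle hpt using fun G : Fam U => refine_step hl hcp hU hsep p hb G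
  have hsup : ∀ (w : W) (g : Iio w → Fam U), ∃ H : Fam U, ∀ n, H.S n = ⋃ b, (g b).S n := by
    intro w g
    have : Countable (Iio w) := (hW' w).to_subtype
    exact Fam.exists_sup g
  choose sup hsup using hsup
  let G : W → Fam U :=
    (wellFounded_lt (α := W)).fix (fun w IH => sup w (fun b => R (IH b.1 b.2)))
  have hG : ∀ w, G w = sup w (fun b => R (G b.1)) := fun w => WellFounded.fix_eq _ _ w
  have hS : ∀ w n, (G w).S n = ⋃ b : Iio w, (R (G b.1)).S n := by
    intro w n
    rw [hG w]
    exact hsup w _ n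
  refine ⟨fun w => Oo (G w), fun w => hOo _, fun w => hmet _, ?_⟩
  intro i
  by_contra hne
  push Not at hne
  have h1 : ∀ w, ∃ n, p i ∉ (G w).S n ∧ p i ∈ (R (G w)).S n :=
    fun w => (hpt (G w) i).resolve_left (hne w)
  choose n hn1 hn2 using h1
  apply hW
  have key : ∀ w w', w < w' → n w ≠ n w' := by
    intro w w' h hww
    apply hn1 w'
    rw [hS, ← hww]
    exact mem_iUnion.2 ⟨⟨w, h⟩, hn2 w⟩
  have hinj : Function.Injective n := by
    intro w w' hww
    by_contra hne'
    rcases lt_or_gt_of_ne hne' with h | h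
    · exact key w w' h hww
    · exact key w' w h hww.symm
  exact hinj.countable

end Pool.Agent.TSP
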