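import Pool.Agent.TSP.Defs

open Set Topology TopologicalSpace Cardinal Filter

namespace Pool.Agent.TSP

universe u v

/-- Countably many families have a common upper bound: the `n`-th sigma set of `H` is the union of the `n`-th sigma
sets of the `G b`.

Proof. `e : B → ℕ` injective. `H.F n k := ⋃ b ∈ {b | e b ≤ k}, (G b).F n k`: a finite union of closed sets
(`{b | e b ≤ k}` is finite), monotone in `k`. -/
theorem Fam.exists_sup {X : Type u} [TopologicalSpace X] {U : ℕ → Set X} {B : Type v} [Countable B]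
    (G : B → Fam U) : ∃ H : Fam U, ∀ n, H.S n = ⋃ b, (G b).S n := by
  obtain ⟨e, he⟩ := exists_injective_nat B
  have hfin : ∀ k, {b : B | e b ≤ k}.Finite := by
    intro k
    have h : (e ⁻¹' (Set.Iic k)).Finite := Set.Finite.preimage he.injOn (Set.finite_Iic k)
    exact h
  refine ⟨⟨fun n k => ⋃ b ∈ {b : B | e b ≤ k}, (G b).F n k, ?_, ?_, ?_⟩, ?_⟩
  · intro n k
    exact (hfin k).isClosed_biUnion (fun b _ => (G b).closed n k)
  · intro n k k' hk x hx
    simp only [Set.mem_iUnion, Set.mem_setOf_eq, exists_prop] at hx ⊢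
    obtain ⟨b, hb, hx⟩ := hx
    exact ⟨b, hb.trans hk, (G b).mono n hk hx⟩
  · intro n k x hx
    simp only [Set.mem_iUnion, Set.mem_setOf_eq, exists_prop] at hx
    obtain ⟨b, _, hx⟩ := hx
    exact (G b).sub n k hx
  · intro n
    ext x
    simp only [Fam.S, Set.mem_iUnion, Set.mem_setOf_eq, exists_prop]
    constructor
    · rintro ⟨k, b, _, hx⟩
      exact ⟨b, k, hx⟩
    · rintro ⟨b, k, hx⟩
      exact ⟨max k (e b), b, le_max_right _ _, (G b).mono n (le_max_left _ _) hx⟩

end Pool.Agent.TSP
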